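import Pool.Agent.Helper25.FB.All
import Pool.Agent.Helper19.FB.DIV1

set_option autoImplicit false

/-!
# MP_6e521b_an: `Φ_P` is bijective for polynomials in two variables whose leading form has no
multiple factor

Notation (definitions in `Pool.Agent.Helper25.FB.Inj`): `Entire` are the entire functions,
`IsAF T` says that `T` is an analytic functional, `FBorel T` is the Fourier-Borel transform,
`ExpType` are the entire functions of exponential type, `InPerp P T` says that the analytic
functional `T` annihilates `P · H(ℂ^2)`, and `InPStarExp P f` says that `f` belongs to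
`P* · Exp(ℂ^2)`.
-/

namespace Pool.Agent.Helper25.Variants.SquarefreeLeadingForm

open Pool.Agent.Helper25.FB Pool.Agent.Helper25.FB.Inj

/-- Let `P` be a polynomial in two variables whose leading form (the homogeneous component of
degree `deg P`) is not zero and has no multiple factor: at every nonzero zero of the leading form
one of its partial derivatives does not vanish.  Then the map
`Φ_P : (P · H(ℂ^2))^⊥ → Exp(ℂ^2) / P* · Exp(ℂ^2)`, `T ↦ class of F(T)`,
is well defined, injective and surjective. -/
theorem result (P : MvPolynomial (Fin 2) ℂ)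
    (hP : ∀ a : Fin 2 → ℂ, a ≠ 0 →
      MvPolynomial.eval a (MvPolynomial.homogeneousComponent P.totalDegree P) = 0 →
      ∃ i, MvPolynomial.eval a
        (MvPolynomial.pderiv i (MvPolynomial.homogeneousComponent P.totalDegree P)) ≠ 0) :
    (∀ T : ((Fin 2 → ℂ) → ℂ) → ℂ, InPerp P T → ExpType (FBorel T)) ∧
    (∀ S T : ((Fin 2 → ℂ) → ℂ) → ℂ, InPerp P S → InPerp P T →
      InPStarExp P (fun z => FBorel S z - FBorel T z) →
      ∀ f : (Fin 2 → ℂ) → ℂ, Entire f → S f = T f) ∧
    (∀ G : (Fin 2 → ℂ) → ℂ, ExpType G →
      ∃ T : ((Fin 2 → ℂ) → ℂ) → ℂ, InPerp P T ∧ InPStarExp P (fun z => FBorel T z - G z)) :=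
  ⟨fun T hT => Inj.result.1 2 T hT.1, fun S T hS hT h => Inj.result.2.1 2 P S T hS hT h,
    main_all div1_thm P hP⟩

end Pool.Agent.Helper25.Variants.SquarefreeLeadingForm
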